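import Pool.Agent.Helper21_M.Mul

set_option autoImplicit false

/-!
# `Γ(1/n)` and the regularized incomplete gamma values `P(1/n, s^n)`: a joint measure

Let `n ≥ 2`.  For a rational number `s > 0` let `R(s) = (n ∫_0^s exp (-u^n) du) / Γ(1/n)`; this is the
regularized incomplete gamma function `P(1/n, s^n)`.

Let `u_0, …, u_m` be different ones of the numbers `1 / Γ(1/n)` and `R(s)` (`s > 0` rational), and let
`D` be given.  There are `κ` and `c > 0` such that for all nonzero polynomials `P` (in one variable) and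
`Q` (in `m` variables) with integer coefficients, of total degree at most `D` and with coefficients of
absolute value at most `H`
`max (|P(u_0)|, |Q(u_1, …, u_m)|) ≥ c H^(-κ)`.

In particular at every scale `H` at most one of the numbers `Γ(1/n)`, `R(s)` has a very good
approximation by an algebraic number of bounded degree and height at most `H`.
-/

namespace Pool.Agent.Results.MP_84d916_nt.JointMeasureRegularized

open Finset MeasureTheory
open Pool.Agent.Helper21_M (names_main_mul)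
open Pool.Agent.R352.T (EA EB EA_eq EA_deriv EA_zero_left EA_alg_Q PI)
open Pool.Agent.R352.E (clF subset_clF indep_of_span of_pow rat_mem)

/-- `n ∫_0^s exp (-u^n) du`, the lower incomplete gamma value `γ(1/n, s^n)` -/
noncomputable def G (n : ℕ) (s : ℚ) : ℝ := n * ∫ u in (0 : ℝ)..s, Real.exp (-u ^ n)

/-- `1 / Γ(1/n)` for `s = 0` and the regularized incomplete gamma value `P(1/n, s^n)` for `s > 0` -/
noncomputable def number (n : ℕ) (s : ℚ) : ℝ :=
  if s = 0 then 1 / Real.Gamma (1 / n) else G n s / Real.Gamma (1 / n)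

lemma int_eq (n : ℕ) (hn : 2 ≤ n) (s : ℝ) :
    n * ∫ u in (0 : ℝ)..s, Real.exp (-u ^ n) = s * (n - EA (1 / n) 1 (s ^ n)) := by
  have hn0 : (n : ℝ) ≠ 0 := by
    have : (0 : ℝ) < n := by exact_mod_cast (by omega : 0 < n)
    exact this.ne'
  set F : ℝ → ℝ := fun s => s * (n - EA (1 / n) 1 (s ^ n)) / n with hF
  have hd : ∀ s : ℝ, HasDerivAt F (Real.exp (-s ^ n)) s := by
    intro s
    have h1 : HasDerivAt (fun s : ℝ => s ^ n) (n * s ^ (n - 1)) s := hasDerivAt_pow n s
    have h2 := EA_deriv (a := (1 / n : ℝ)) (by positivity) 0 (s ^ n)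
    have h3 : HasDerivAt (fun s : ℝ => EA (1 / n) (0 + 1) (s ^ n))
        ((EB (1 / n) 0 (s ^ n) - 1 / n * EB (1 / n) (0 + 1) (s ^ n)) * (n * s ^ (n - 1))) s :=
      HasDerivAt.comp (h := fun s : ℝ => s ^ n) s h2 h1
    have h4 := ((hasDerivAt_id s).mul (h3.const_sub (n : ℝ))).div_const (n : ℝ)
    refine h4.congr_deriv ?_
    have h5 := EA_eq (a := (1 / n : ℝ)) 1 (s ^ n)
    have h6 := EA_eq (a := (1 / n : ℝ)) 0 (s ^ n)
    rw [EA_zero_left] at h6
    simp only [id, zero_add]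
    rw [h5]
    have h7 : Real.exp (-s ^ n) = 1 - s ^ n * EB (1 / n) 0 (s ^ n) := by linarith
    have h8 : s * s ^ (n - 1) = s ^ n := by
      rw [← pow_succ']
      congr 1
      omega
    rw [h7]
    have e1 : s * -((EB (1 / n) 0 (s ^ n) - 1 / n * EB (1 / n) 1 (s ^ n)) * (n * s ^ (n - 1))) =
        -((EB (1 / n) 0 (s ^ n) - 1 / n * EB (1 / n) 1 (s ^ n)) * n) * (s * s ^ (n - 1)) := by ring
    rw [e1, h8]
    field_simp
    ring
  rw [intervalIntegral.integral_eq_sub_of_hasDerivAt (fun t _ => hd t)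
    ((Real.continuous_exp.comp (continuous_pow n).neg).intervalIntegrable _ _)]
  simp only [hF]
  field_simp
  ring

/-- names: nonnegative rational numbers -/
abbrev NG : Type := {s : ℚ // 0 ≤ s}

/-- the factors -/
noncomputable def fac (n : ℕ) (s : NG) : ℝ :=
  if s.1 = 0 then 1 else (s : ℚ) * (n - EA (1 / n) 1 ((s : ℚ) ^ n))

lemma num_eq (n : ℕ) (hn : 2 ≤ n) (s : NG) : number n s = (Real.Gamma (1 / n))⁻¹ * fac n s := by
  rw [number, fac]
  split_ifs with h
  · rw [one_div, mul_one]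
  · rw [G, int_eq n hn, div_eq_mul_inv, mul_comm]

lemma fac_ne (n : ℕ) (hn : 2 ≤ n) (s : NG) : fac n s ≠ 0 := by
  rw [fac]
  split_ifs with h
  · exact one_ne_zero
  · rw [← int_eq n hn]
    have hs : 0 < s.1 := lt_of_le_of_ne s.2 (Ne.symm h)
    have hs' : (0 : ℝ) < (s.1 : ℚ) := by exact_mod_cast hs
    have hn0 : (0 : ℝ) < n := by exact_mod_cast (by omega : 0 < n)
    refine mul_ne_zero hn0.ne' (ne_of_gt ?_)
    exact intervalIntegral.intervalIntegral_pos_of_pos
      ((Real.continuous_exp.comp (continuous_pow n).neg).intervalIntegrable _ _) (fun _ => Real.exp_pos _) hs'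

lemma fac_indep (n : ℕ) (hn : 2 ≤ n) :
    AlgebraicIndependent ℚ (fun z : {b : NG // b ≠ ⟨0, le_rfl⟩} => fac n z) := by
  classical
  have hn1 : (1 : ℚ) < n := by exact_mod_cast (by omega : 1 < n)
  have hn0 : (0 : ℚ) < n := by linarith
  have hne : ∀ z : {b : NG // b ≠ ⟨0, le_rfl⟩}, z.1.1 ≠ 0 := fun z h => z.2 (Subtype.ext h)
  have hpos : ∀ z : {b : NG // b ≠ ⟨0, le_rfl⟩}, 0 < (z.1.1 : ℚ) := fun z =>
    lt_of_le_of_ne z.1.2 (hne z).symm
  have hbas : AlgebraicIndependent ℚ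
      (fun z : {b : NG // b ≠ ⟨0, le_rfl⟩} => EA (1 / n) 1 (((z.1.1 : ℚ) : ℝ) ^ n)) := by
    let f : {b : NG // b ≠ ⟨0, le_rfl⟩} → Option PI := fun z =>
      some ⟨(0, 1 / n, z.1.1 ^ n), by positivity, by
        show (1 : ℚ) / n < 1
        rw [div_lt_one hn0]; exact hn1, pow_pos (hpos z) n⟩
    have hf : Function.Injective f := by
      intro z z' h
      simp only [f, Option.some.injEq, Subtype.mk.injEq, Prod.mk.injEq, true_and] at h
      have h1 : z.1.1 = z'.1.1 := (pow_left_inj₀ z.1.2 z'.1.2 (by omega)).1 h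
      exact Subtype.ext (Subtype.ext h1)
    have h2 := EA_alg_Q.comp f hf
    convert h2 using 1
    funext z
    simp [f]
  refine algebraicIndependent_of_finite_type fun t ht => ?_
  have hfin : Fintype t := ht.fintype
  have hx : AlgebraicIndependent ℚ (fun z : t => EA (1 / n) 1 ((((z : {b : NG // b ≠ ⟨0, le_rfl⟩}).1.1 : ℚ) : ℝ) ^ n)) :=
    hbas.comp _ Subtype.val_injective
  refine indep_of_span hx (fun z => ?_) le_rfl
  set R := Set.range (fun z : t => fac n (z : {b : NG // b ≠ ⟨0, le_rfl⟩})) with hR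
  have hs0 : (0 : ℝ) < ((z : {b : NG // b ≠ ⟨0, le_rfl⟩}).1.1 : ℚ) := by exact_mod_cast hpos z.1
  have h0 : fac n (z : {b : NG // b ≠ ⟨0, le_rfl⟩}) ∈ clF R := subset_clF R ⟨z, rfl⟩
  have h1 : (((z : {b : NG // b ≠ ⟨0, le_rfl⟩}).1.1 : ℚ) : ℝ) *
      (n - EA (1 / n) 1 ((((z : {b : NG // b ≠ ⟨0, le_rfl⟩}).1.1 : ℚ) : ℝ) ^ n)) ∈ clF R := by
    rw [fac, if_neg (hne z.1)] at h0
    exact h0
  have h2 := (clF R).div_mem h1 (rat_mem R ((z : {b : NG // b ≠ ⟨0, le_rfl⟩}).1.1))
  rw [mul_div_cancel_left₀ _ hs0.ne'] at h2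
  have h3 : (n : ℝ) ∈ clF R := by exact_mod_cast rat_mem R (n : ℚ)
  have h4 := (clF R).sub_mem h3 h2
  rw [sub_sub_cancel] at h4
  exact h4

/-- **One number against several.** -/
theorem main (n : ℕ) (hn : 2 ≤ n) {m : ℕ} (a : Fin (m + 1) → NG) (ha : Function.Injective a) (D : ℕ) :
    ∃ (κ : ℕ) (C : ℝ), 0 < C ∧ ∀ (P : Polynomial ℤ) (Q : MvPolynomial (Fin m) ℤ), P ≠ 0 → Q ≠ 0 →
      P.natDegree ≤ D → Q.totalDegree ≤ D → ∀ H : ℝ, 1 ≤ H →
      (∀ i, |((P.coeff i : ℤ) : ℝ)| ≤ H) → (∀ s, |((MvPolynomial.coeff s Q : ℤ) : ℝ)| ≤ H) →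
      C ≤ H ^ κ * max |Polynomial.aeval (number n (a 0)) P|
        |MvPolynomial.aeval (fun j : Fin m => number n (a j.succ)) Q| := by
  classical
  have hn1 : (1 : ℚ) < n := by exact_mod_cast (by omega : 1 < n)
  have hn0 : (0 : ℚ) < n := by linarith
  have hG : (Real.Gamma (1 / n))⁻¹ ≠ 0 := by
    apply inv_ne_zero
    have : (0 : ℝ) < 1 / n := by
      have : (0 : ℝ) < n := by exact_mod_cast (by omega : 0 < n)
      positivity
    exact (Real.Gamma_pos_of_pos this).ne'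
  let X : Fin (m + 1) → ℚ := fun j => if (a j).1 = 0 then 1 else (a j).1
  let S : Finset (ℚ × ℚ) := Finset.univ.image fun j => ((1 / n : ℚ), X j ^ n)
  have hXpos : ∀ j, 0 < X j := by
    intro j
    show 0 < if (a j).1 = 0 then (1 : ℚ) else (a j).1
    split_ifs with h
    · exact one_pos
    · exact lt_of_le_of_ne (a j).2 (Ne.symm h)
  have hS : ∀ p ∈ S, 0 ≤ p.1 ∧ p.1 < 1 ∧ 0 < p.2 := by
    intro p hp
    obtain ⟨j, _, rfl⟩ := Finset.mem_image.1 hp
    refine ⟨by positivity, ?_, pow_pos (hXpos j) n⟩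
    show (1 : ℚ) / n < 1
    rw [div_lt_one hn0]; exact hn1
  set M : ℕ := ∏ j, (X j).den with hM
  have hM0 : M ≠ 0 := Finset.prod_ne_zero_iff.2 fun j _ => (X j).den_ne_zero
  have h := names_main_mul (⟨0, le_rfl⟩ : NG) (fac n) (fac_ne n hn) (by simp [fac]) (fac_indep n hn)
    (Real.Gamma (1 / n))⁻¹ hG 1 a ha S hS (M ^ 2) (pow_ne_zero 2 hM0)
    (fun B g hg heg hexp hE j => by
      have h1 : EA (1 / n) 1 ((X j : ℝ) ^ n) ∈ B := by
        have := hE ((1 / n : ℚ), X j ^ n) (Finset.mem_image_of_mem _ (Finset.mem_univ j)) 1 le_rfl le_rfl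
        push_cast at this
        exact this
      have hMX : ((M : ℝ) * (X j : ℝ)) ∈ B := by
        obtain ⟨d, hd⟩ := Finset.dvd_prod_of_mem (fun j => (X j).den) (Finset.mem_univ j)
        have h2 : (M : ℚ) * X j = ((d * (X j).num : ℤ) : ℚ) := by
          have h3 : (M : ℚ) = ((X j).den : ℚ) * d := by
            rw [hM, hd]; push_cast; rfl
          have h4 : X j * (X j).den = (X j).num := Rat.mul_den_eq_num (X j)
          push_cast
          rw [h3, ← h4]
          ring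
        have h5 : (M : ℝ) * (X j : ℝ) = ((d * (X j).num : ℤ) : ℝ) := by
          have := congrArg (fun z : ℚ => (z : ℝ)) h2
          push_cast at this ⊢
          exact this
        rw [h5]
        exact intCast_mem B _
      by_cases h0 : (a j).1 = 0
      · have e0 : fac n (a j) = 1 := by
          rw [fac, if_pos h0]
        rw [e0, one_pow, one_mul]
        exact B.mul_mem (natCast_mem B _) (B.pow_mem hg 2)
      · have hXx : X j = (a j).1 := if_neg h0
        rw [hXx] at h1 hMX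
        have e1 : fac n (a j) ^ 2 * (((M ^ 2 : ℕ) : ℝ) * g ^ 2) = ((M * (((a j).1 : ℚ) : ℝ)) *
            ((n - EA (1 / n) 1 ((((a j).1 : ℚ) : ℝ) ^ n)) * g)) ^ 2 := by
          rw [fac, if_neg h0]; push_cast; ring
        rw [e1]
        exact B.pow_mem (B.mul_mem hMX (B.mul_mem (B.sub_mem (natCast_mem B n) h1) hg)) 2) D
  obtain ⟨κ, C, hC, hm⟩ := h
  refine ⟨κ, C, hC, fun P Q hP hQ hPD hQD H hH hPH hQH => ?_⟩
  have h1 := hm P Q hP hQ hPD hQD H hH hPH hQH
  simp only [← num_eq n hn] at h1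
  exact h1

theorem result (n : ℕ) (hn : 2 ≤ n) (m D : ℕ) (s : Fin (m + 1) → ℚ) (hs : Function.Injective s) (hpos : ∀ j, 0 ≤ s j) :
    ∃ (κ : ℕ) (c : ℝ), 0 < c ∧ ∀ (H : ℕ) (P : Polynomial ℤ) (Q : MvPolynomial (Fin m) ℤ),
      P ≠ 0 → P.natDegree ≤ D → (∀ i, |P.coeff i| ≤ (H : ℤ)) →
      Q ≠ 0 → Q.totalDegree ≤ D → (∀ r, |MvPolynomial.coeff r Q| ≤ (H : ℤ)) →
      c / (H : ℝ) ^ κ ≤ max |Polynomial.aeval (number n (s 0)) P|
        |MvPolynomial.aeval (fun j : Fin m => number n (s j.succ)) Q| := by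
  obtain ⟨κ, c, hc, h⟩ := main n hn (fun j => (⟨s j, hpos j⟩ : NG)) (fun i j hij => hs (congrArg Subtype.val hij)) D
  refine ⟨κ, c, hc, fun H P Q hP hPD hPH hQ hQD hQH => ?_⟩
  have hH : 1 ≤ H := by
    by_contra h0
    have hH0 : H = 0 := by omega
    apply hP
    ext i
    have h1 := hPH i
    rw [hH0, Nat.cast_zero] at h1
    rw [Polynomial.coeff_zero]
    exact abs_eq_zero.1 (le_antisymm h1 (abs_nonneg _))
  have hH' : (1 : ℝ) ≤ H := by exact_mod_cast hH
  have h1 := h P Q hP hQ hPD hQD H hH' (fun i => by exact_mod_cast hPH i) (fun r => by exact_mod_cast hQH r)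
  rw [div_le_iff₀ (by positivity), mul_comm]
  exact h1

end Pool.Agent.Results.MP_84d916_nt.JointMeasureRegularized
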